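import Pool.Agent.Q175.TR.Tri

/-!
The first Dirichlet eigenfunction of the equilateral triangle, normalised to have maximum `1`, is
not `1/2`-log-concave.

With the altitude coordinates `h₁ + h₂ + h₃ = 1` the eigenfunction is
`8 / (3 √3) · sin (π h₁) sin (π h₂) sin (π h₃)`. On the symmetry axis, at the three equally spaced
points with `h₁ = 1/3, 5/12, 1/2` it takes the values `1`, `(1 + √2 + √6) / (3 √3)` and
`4 / (3 √3)`, and the fourth power of the second is smaller than the third.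
-/

namespace Pool.Agent.Results.MP_c418e9_an.TriangleNotHalfLogConcave

open MeasureTheory Laplacian Set
open scoped ContDiff

/-- `lam` is the first Dirichlet eigenvalue of `-Δ` in `Ω`: the infimum of the Rayleigh quotient
over the nonzero smooth functions with compact support in `Ω`. -/
def IsFirstDirichletEigenvalue {N : ℕ} (Ω : Set (EuclideanSpace ℝ (Fin N))) (lam : ℝ) : Prop :=
  IsGLB {r : ℝ | ∃ v : EuclideanSpace ℝ (Fin N) → ℝ, ContDiff ℝ ∞ v ∧ HasCompactSupport v ∧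
    tsupport v ⊆ Ω ∧ (∃ x, v x ≠ 0) ∧ r = (∫ x, ‖gradient v x‖ ^ 2) / ∫ x, v x ^ 2} lam

/-- `φ` is a positive first Dirichlet eigenfunction of `-Δ` in `Ω`. -/
structure IsPositiveFirstEigenfunction {N : ℕ} (Ω : Set (EuclideanSpace ℝ (Fin N)))
    (φ : EuclideanSpace ℝ (Fin N) → ℝ) : Prop where
  smooth : ContDiffOn ℝ ∞ φ Ω
  continuousOn : ContinuousOn φ (closure Ω)
  eqn : ∃ lam : ℝ, IsFirstDirichletEigenvalue Ω lam ∧ ∀ x ∈ Ω, -Δ φ x = lam * φ x
  pos : ∀ x ∈ Ω, 0 < φ x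
  zero : ∀ x ∈ frontier Ω, φ x = 0

/-- There are a bounded convex domain in the plane and a positive first Dirichlet eigenfunction
`φ ≤ 1` of it for which `√(-log φ)` is not convex. -/
theorem result : ∃ (Ω : Set (EuclideanSpace ℝ (Fin 2))) (φ : EuclideanSpace ℝ (Fin 2) → ℝ),
    IsOpen Ω ∧ Ω.Nonempty ∧ Bornology.IsBounded Ω ∧ Convex ℝ Ω ∧
      IsPositiveFirstEigenfunction Ω φ ∧ (∀ x ∈ Ω, φ x ≤ 1) ∧
      ¬ ConvexOn ℝ Ω (fun x => √(-Real.log (φ x))) := by
  have hne : Q175.TR.T.Nonempty :=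
    ⟨Q175.TR.P (1/2), Q175.TR.P_mem (by norm_num) (by norm_num)⟩
  refine ⟨Q175.TR.T, Q175.TR.F, Q175.TR.T_open, hne, Q175.TR.T_bdd, Q175.TR.T_convex,
    ⟨Q175.TR.F_smooth.contDiffOn, Q175.TR.F_smooth.continuous.continuousOn,
      ⟨4 * Real.pi ^ 2, ?_, fun x _ => Q175.TR.F_eq x⟩, fun x hx => Q175.TR.F_pos hx,
      fun x hx => Q175.TR.T_frontier hx⟩, fun x hx => Q175.TR.F_le_one hx, Q175.TR.not_convex⟩
  exact Q175.TR.isGLB_rayleigh Q175.TR.T_open hne Q175.TR.T_bdd Q175.TR.F_smooth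
    (fun x hx => Q175.TR.F_pos hx) (fun x _ => Q175.TR.F_eq x) (fun x hx => Q175.TR.T_frontier hx)

end Pool.Agent.Results.MP_c418e9_an.TriangleNotHalfLogConcave
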